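import Pool.Agent.DPS.Stmts

namespace Pool.Agent.DPS.H94

open Finset Polynomial

theorem M_zero (n k : ℕ) (f : KS n k → ℝ) (F : KS n k) : M n k 0 f F = dg f ∅ := by
  change ∑ R ∈ Finset.powersetCard 0 (Finset.univ : Finset (Fin n)),
    (if R ⊆ F.1 then (1 : ℝ) else 0) * dg f R = _
  rw [Finset.powersetCard_zero, Finset.sum_singleton, if_pos (Finset.empty_subset _), one_mul]

theorem Y_const (n k : ℕ) (f : KS n k → ℝ) (c : ℝ) (hf : ∀ F, f F = c) : Y n k f = 0 := by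
  funext F
  change (1 / 2) * ∑ a : Fin n, ∑ b : Fin n, (f F - f (sw a b F)) = 0
  simp [hf]

/-- Row ANN. -/
theorem ann (hMPO : MPOStmt) : ANNStmt := by
  intro n k
  have h1 : Finset.range (k + 1) = insert 0 (Finset.Ioc 0 k) := by
    ext i
    simp only [Finset.mem_range, Finset.mem_insert, Finset.mem_Ioc]
    omega
  have h2 : ∏ l ∈ Finset.Ioc 0 k, (C (y n l) - X) = C (((k.factorial : ℝ)) ^ 2) * mp n k 0 := by
    rw [mp, ← mul_assoc, ← C_mul, Nat.sub_zero, mul_one_div_cancel, C_1, one_mul]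
    exact pow_ne_zero _ (Nat.cast_ne_zero.2 (Nat.factorial_ne_zero _))
  rw [h1, Finset.prod_insert (by simp), h2, map_mul, map_mul, hMPO n k 0 (Nat.zero_le _)]
  apply LinearMap.ext
  intro f
  have hy : y n 0 = 0 := by simp [y]
  have h3 : aeval (Y n k) (C (y n 0) - X : ℝ[X]) = - Y n k := by
    rw [hy, C_0, zero_sub, map_neg, aeval_X]
  rw [h3]
  have h4 : aeval (Y n k) (C (((k.factorial : ℝ)) ^ 2)) =
      (((k.factorial : ℝ)) ^ 2) • (1 : (KS n k → ℝ) →ₗ[ℝ] (KS n k → ℝ)) := by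
    rw [aeval_C, Algebra.algebraMap_eq_smul_one]
  rw [h4]
  change - Y n k ((((k.factorial : ℝ)) ^ 2) • M n k 0 f) = 0
  rw [map_smul, Y_const n k (M n k 0 f) (dg f ∅) (M_zero n k f), smul_zero, neg_zero]

end Pool.Agent.DPS.H94
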