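import Pool.Agent.DPS.Stmts

namespace Pool.Agent.DPS.H94

open Finset Polynomial

theorem y_sub (n i j : ℕ) : y n j - y n i = ((j : ℝ) - i) * ((n : ℝ) + 1 - i - j) := by
  rw [y, y]; ring

theorem y_lt {n k i j : ℕ} (hn : 2 * k ≤ n) (hij : i < j) (hj : j ≤ k) : y n i < y n j := by
  rw [← sub_pos, y_sub]
  have h1 : (i : ℝ) < j := by exact_mod_cast hij
  have h2 : (i : ℝ) + j + 1 ≤ n := by
    have : i + j + 1 ≤ n := by omega
    exact_mod_cast this
  exact mul_pos (by linarith) (by linarith)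

theorem y_injOn {n k : ℕ} (hn : 2 * k ≤ n) (s : Finset ℕ) (hs : ∀ i ∈ s, i ≤ k) :
    Set.InjOn (y n) (s : Set ℕ) := by
  intro i hi j hj hij
  by_contra hne
  rcases Nat.lt_or_gt_of_ne hne with h | h
  · exact absurd hij (y_lt hn h (hs j hj)).ne
  · exact absurd hij.symm (y_lt hn h (hs i hi)).ne

theorem y_shift {n : ℕ} (hn : 2 ≤ n) (l : ℕ) : y n (l + 1) = n + y (n - 2) l := by
  rw [y, y, Nat.cast_sub hn]
  push_cast
  ring

theorem gk_shift {n k : ℕ} (hk : 1 ≤ k) (hn : 2 * k ≤ n) (l : ℕ) :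
    gk n k (l + 1) = -(((n : ℝ) - k) / k) * gk (n - 2) (k - 1) l := by
  rw [gk, gk]
  obtain ⟨a, rfl⟩ : ∃ a, k = a + 1 := ⟨k - 1, by omega⟩
  obtain ⟨b, rfl⟩ : ∃ b, n = b + 1 + (a + 1) := ⟨n - (a + 1) - 1, by omega⟩
  have e1 : a + 1 - (l + 1) = a - l := by omega
  have e2 : b + 1 + (a + 1) - (a + 1) = b + 1 := by omega
  have e3 : b + 1 - (l + 1) = b - l := by omega
  have e4 : a + 1 - 1 = a := by omega
  have e5 : b + 1 + (a + 1) - 2 - a = b := by omega
  rw [e2, e4, e5, e1, e3, Nat.factorial_succ b, Nat.factorial_succ a, pow_succ]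
  have h1 : ((b - l).factorial : ℝ) ≠ 0 := Nat.cast_ne_zero.2 (Nat.factorial_ne_zero _)
  have h2 : (a.factorial : ℝ) ≠ 0 := Nat.cast_ne_zero.2 (Nat.factorial_ne_zero _)
  have h3 : ((a : ℝ) + 1) ≠ 0 := by positivity
  push_cast
  field_simp
  ring

/-- The shift of a divided difference. -/
theorem dd_shift {n k : ℕ} (hk : 1 ≤ k) (hn : 2 * k ≤ n) (s : Finset ℕ) :
    dd (y n) (s.image (· + 1)) (gk n k) =
      -(((n : ℝ) - k) / k) * dd (y (n - 2)) s (gk (n - 2) (k - 1)) := by
  have hinj : Function.Injective (fun x : ℕ => x + 1) := fun a b h => by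
    simpa using h
  rw [dd, dd, Finset.sum_image (fun a _ b _ h => hinj h), Finset.mul_sum]
  refine Finset.sum_congr rfl fun i hi => ?_
  rw [gk_shift hk hn, ← Finset.image_erase hinj, Finset.prod_image (fun a _ b _ h => hinj h)]
  have h1 : ∏ x ∈ s.erase i, (y n (i + 1) - y n (x + 1)) =
      ∏ x ∈ s.erase i, (y (n - 2) i - y (n - 2) x) := by
    refine Finset.prod_congr rfl fun x _ => ?_
    rw [y_shift (by omega), y_shift (by omega)]
    ring
  rw [h1, mul_div_assoc]

/-- Row DDC. -/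
theorem ddc (hDDR : DDRStmt) : DDCStmt := by
  intro m
  induction m with
  | zero =>
    intro n k _ hn
    have h1 : gk n k 0 = 1 := by
      rw [gk]
      have h1 : (k.factorial : ℝ) ≠ 0 := Nat.cast_ne_zero.2 (Nat.factorial_ne_zero _)
      have h2 : ((n - k).factorial : ℝ) ≠ 0 := Nat.cast_ne_zero.2 (Nat.factorial_ne_zero _)
      simp only [pow_zero, Nat.sub_zero, one_mul]
      field_simp
    simp [dd, h1]
  | succ m ih =>
    intro n k hm hn
    have hd := hDDR (y n) (Finset.Icc 1 m) (gk n k) 0 (m + 1) (by simp) (by simp) (by omega)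
      (y_injOn hn _ (fun i hi => by
        simp only [Finset.mem_insert, Finset.mem_Icc] at hi
        omega))
    have e1 : insert 0 (insert (m + 1) (Finset.Icc 1 m)) = Finset.range (m + 1 + 1) := by
      ext i
      simp only [Finset.mem_range, Finset.mem_insert, Finset.mem_Icc]
      omega
    have e2 : insert (m + 1) (Finset.Icc 1 m) = (Finset.range (m + 1)).image (· + 1) := by
      ext i
      simp only [Finset.mem_range, Finset.mem_insert, Finset.mem_Icc, Finset.mem_image]
      constructor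
      · intro h
        exact ⟨i - 1, by omega, by omega⟩
      · rintro ⟨j, hj, rfl⟩
        omega
    have e3 : insert 0 (Finset.Icc 1 m) = Finset.range (m + 1) := by
      ext i
      simp only [Finset.mem_range, Finset.mem_insert, Finset.mem_Icc]
      omega
    rw [e1, e2, e3, dd_shift (by omega) hn, ih (n - 2) (k - 1) (by omega) (by omega),
      ih n k (by omega) hn, y_sub] at hd
    have h0 : (0 : ℝ) < (m : ℝ) + 1 := by positivity
    have h1 : (0 : ℝ) < (n : ℝ) - m := by
      have : m + 1 ≤ n := by omega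
      have : (m : ℝ) + 1 ≤ n := by exact_mod_cast this
      linarith
    have hk0 : (0 : ℝ) < k := by
      have : 0 < k := by omega
      exact_mod_cast this
    have e4 : (k.descFactorial (m + 1) : ℝ) = (k : ℝ) * ((k - 1).descFactorial m : ℝ) := by
      obtain ⟨a, rfl⟩ : ∃ a, k = a + 1 := ⟨k - 1, by omega⟩
      rw [Nat.succ_descFactorial_succ]
      push_cast
      simp
    have e5 : (k.descFactorial (m + 1) : ℝ) = ((k : ℝ) - m) * (k.descFactorial m : ℝ) := by
      rw [Nat.descFactorial_succ, Nat.cast_mul, Nat.cast_sub (by omega)]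
    have p1 : ((k - 1).descFactorial m : ℝ) ≠ 0 :=
      Nat.cast_ne_zero.2 (fun h => by
        rw [Nat.descFactorial_eq_zero_iff_lt] at h
        omega)
    have p2 : (k.descFactorial m : ℝ) ≠ 0 :=
      Nat.cast_ne_zero.2 (fun h => by
        rw [Nat.descFactorial_eq_zero_iff_lt] at h
        omega)
    have p3 : (k.descFactorial (m + 1) : ℝ) ≠ 0 :=
      Nat.cast_ne_zero.2 (fun h => by
        rw [Nat.descFactorial_eq_zero_iff_lt] at h
        omega)
    have p4 : (m.factorial : ℝ) ≠ 0 := Nat.cast_ne_zero.2 (Nat.factorial_ne_zero _)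
    have hkm : (k : ℝ) - m ≠ 0 := by
      have : m + 1 ≤ k := hm
      have : (m : ℝ) + 1 ≤ k := by exact_mod_cast this
      linarith
    have q1 : -(((n : ℝ) - k) / k) * ((-1) ^ m / ((m.factorial : ℝ) * ((k - 1).descFactorial m : ℝ)))
        = -((-1) ^ m * ((n : ℝ) - k) / ((m.factorial : ℝ) * (k.descFactorial (m + 1) : ℝ))) := by
      rw [e4]
      field_simp
    have q2 : (-1 : ℝ) ^ m / ((m.factorial : ℝ) * (k.descFactorial m : ℝ)) =
        (-1) ^ m * ((k : ℝ) - m) / ((m.factorial : ℝ) * (k.descFactorial (m + 1) : ℝ)) := by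
      rw [e5]
      field_simp
    rw [q1, q2] at hd
    have h3 : (((m : ℝ) + 1) * ((n : ℝ) - m)) ≠ 0 := (mul_pos h0 h1).ne'
    have h4 : (((m + 1 : ℕ) : ℝ) - ((0 : ℕ) : ℝ)) * ((n : ℝ) + 1 - ((0 : ℕ) : ℝ) - ((m + 1 : ℕ) : ℝ))
        = ((m : ℝ) + 1) * ((n : ℝ) - m) := by
      push_cast
      ring
    rw [h4] at hd
    apply mul_left_cancel₀ h3
    rw [hd, Nat.factorial_succ, pow_succ]
    push_cast
    field_simp
    ring

end Pool.Agent.DPS.H94
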