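import Pool.Agent.Helper94_DPS.DDC

namespace Pool.Agent.DPS.H94

open Finset Polynomial

/-- Row DDT. -/
theorem ddt (hDDR : DDRStmt) (hDDC : DDCStmt) : DDTStmt := by
  intro n k t ht htk hn
  have e1 : insert (t + 2) (Finset.Icc 1 t) = (insert (t + 1) (Finset.range t)).image (· + 1) := by
    ext i
    simp only [Finset.mem_range, Finset.mem_insert, Finset.mem_Icc, Finset.mem_image]
    constructor
    · intro h
      exact ⟨i - 1, by omega, by omega⟩
    · rintro ⟨j, hj, rfl⟩
      omega
  have hd := hDDR (y (n - 2)) (Finset.range t) (gk (n - 2) (k - 1)) t (t + 1) (by simp)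
    (by simp) (by omega)
    (y_injOn (k := k - 1) (by omega) _ (fun i hi => by
      simp only [Finset.mem_insert, Finset.mem_range] at hi
      omega))
  have e2 : insert t (insert (t + 1) (Finset.range t)) = Finset.range (t + 1 + 1) := by
    ext i
    simp only [Finset.mem_range, Finset.mem_insert]
    omega
  have e3 : insert t (Finset.range t) = Finset.range (t + 1) := by
    ext i
    simp only [Finset.mem_range, Finset.mem_insert]
    omega
  rw [e2, e3, hDDC (t + 1) (n - 2) (k - 1) (by omega) (by omega),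
    hDDC t (n - 2) (k - 1) (by omega) (by omega), y_sub] at hd
  rw [e1, dd_shift (by omega) hn]
  have hd2 := eq_add_of_sub_eq hd.symm
  rw [hd2]
  have hn2 : ((n - 2 : ℕ) : ℝ) = (n : ℝ) - 2 := by
    rw [Nat.cast_sub (by omega)]
    norm_num
  rw [hn2]
  have e5 : ((k - 1).descFactorial (t + 1) : ℝ) =
      ((k : ℝ) - 1 - t) * ((k - 1).descFactorial t : ℝ) := by
    rw [Nat.descFactorial_succ, Nat.cast_mul, Nat.cast_sub (by omega), Nat.cast_sub (by omega)]
    norm_num
  have p2 : ((k - 1).descFactorial t : ℝ) ≠ 0 :=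
    Nat.cast_ne_zero.2 (fun h => by
      rw [Nat.descFactorial_eq_zero_iff_lt] at h
      omega)
  have p4 : (t.factorial : ℝ) ≠ 0 := Nat.cast_ne_zero.2 (Nat.factorial_ne_zero _)
  have hkm : (k : ℝ) - 1 - t ≠ 0 := by
    have : (t : ℝ) + 2 ≤ k := by exact_mod_cast htk
    linarith
  have hk0 : (k : ℝ) ≠ 0 := by
    have : (t : ℝ) + 2 ≤ k := by exact_mod_cast htk
    have : (0 : ℝ) ≤ t := Nat.cast_nonneg t
    linarith
  have h0 : ((t : ℝ) + 1) ≠ 0 := by positivity
  rw [e5, Nat.factorial_succ, pow_succ]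
  push_cast
  field_simp
  ring

end Pool.Agent.DPS.H94
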