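import Pool.Agent.Helper94_DPS.DDC

namespace Pool.Agent.DPS.H94

open Finset Polynomial

/-- `kap` and `gk`. -/
theorem kap_gk {n k l : ℕ} (hn : 2 * k ≤ n) (hl : l ≤ k) :
    kap n k l ≠ 0 ∧ gk n k l * kap n k l = kap n k 0 := by
  have h1 : ((n - k - l).choose (k - l) : ℝ) ≠ 0 := by
    have := Nat.choose_pos (n := n - k - l) (k := k - l) (by omega)
    exact_mod_cast this.ne'
  refine ⟨mul_ne_zero (pow_ne_zero _ (by norm_num)) h1, ?_⟩
  rw [gk, kap, kap]
  have c1 := Nat.choose_mul_factorial_mul_factorial (n := n - k - l) (k := k - l) (by omega)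
  have c2 := Nat.choose_mul_factorial_mul_factorial (n := n - k) (k := k) (by omega)
  have e1 : n - k - l - (k - l) = n - k - k := by omega
  rw [e1] at c1
  have c1' : ((n - k - l).choose (k - l) : ℝ) * ((k - l).factorial : ℝ) *
      ((n - k - k).factorial : ℝ) = ((n - k - l).factorial : ℝ) := by exact_mod_cast c1
  have c2' : ((n - k).choose k : ℝ) * (k.factorial : ℝ) *
      ((n - k - k).factorial : ℝ) = ((n - k).factorial : ℝ) := by exact_mod_cast c2
  have f1 : ((k - l).factorial : ℝ) ≠ 0 := Nat.cast_ne_zero.2 (Nat.factorial_ne_zero _)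
  have f2 : ((n - k - k).factorial : ℝ) ≠ 0 := Nat.cast_ne_zero.2 (Nat.factorial_ne_zero _)
  have f3 : (k.factorial : ℝ) ≠ 0 := Nat.cast_ne_zero.2 (Nat.factorial_ne_zero _)
  have hs : ((-1 : ℝ) ^ l) * ((-1 : ℝ) ^ l) = 1 := by
    rw [← mul_pow]; norm_num
  rw [← c1', ← c2', Nat.sub_zero, Nat.sub_zero, pow_zero, one_mul]
  have e2 : (-1 : ℝ) ^ l * (((k - l).factorial : ℝ) *
        (((n - k).choose k : ℝ) * (k.factorial : ℝ) * ((n - k - k).factorial : ℝ))) /
      (((n - k - l).choose (k - l) : ℝ) * ((k - l).factorial : ℝ) *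
        ((n - k - k).factorial : ℝ) * (k.factorial : ℝ)) *
      ((-1 : ℝ) ^ l * ((n - k - l).choose (k - l) : ℝ)) =
      ((-1 : ℝ) ^ l * (-1 : ℝ) ^ l) * ((n - k).choose k : ℝ) := by
    field_simp
  rw [e2, hs, one_mul]

/-- The sign of a partial product of differences. -/
theorem sign_prod {n k t l : ℕ} (hn : 2 * k ≤ n) (htk : t ≤ k) (hl : l ∈ Finset.Icc 1 t) :
    0 < (-1 : ℝ) ^ (t - l) * ∏ m ∈ (Finset.Icc 1 t).erase l, (y n l - y n m) := by
  have hl' := Finset.mem_Icc.1 hl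
  have h1 : (-1 : ℝ) ^ (t - l) =
      ∏ m ∈ (Finset.Icc 1 t).erase l, (if l < m then (-1 : ℝ) else 1) := by
    rw [Finset.prod_ite, Finset.prod_const_one, mul_one, Finset.prod_const]
    congr 1
    have h2 : ((Finset.Icc 1 t).erase l).filter (fun m => l < m) = Finset.Ioc l t := by
      ext m
      simp only [Finset.mem_filter, Finset.mem_erase, Finset.mem_Icc, Finset.mem_Ioc]
      omega
    rw [h2, Nat.card_Ioc]
  rw [h1, ← Finset.prod_mul_distrib]
  refine Finset.prod_pos fun m hm => ?_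
  have hm' := Finset.mem_erase.1 hm
  have hm'' := Finset.mem_Icc.1 hm'.2
  split_ifs with h
  · have := y_lt hn h (le_trans hm''.2 htk)
    linarith
  · have h3 : m < l := by omega
    have := y_lt hn h3 (le_trans hl'.2 htk)
    linarith

/-- Row WIT. -/
theorem wit (hDDI : DDIStmt) (hDDT : DDTStmt) : WITStmt := by
  intro n k t ht htk hn
  have hn2 : 2 * k ≤ n := by
    obtain ⟨a, rfl⟩ : ∃ a, k = t + 2 + a := ⟨k - (t + 2), by omega⟩
    obtain ⟨b, rfl⟩ : ∃ b, t = b + 1 := ⟨t - 1, by omega⟩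
    have e : b + 1 + 2 + a - (b + 1) + 1 = a + 3 := by omega
    rw [e] at hn
    nlinarith
  have hk2 := kap_gk (l := t + 2) hn2 htk
  have hk0 := kap_gk (l := 0) hn2 (Nat.zero_le _)
  have hinj : Set.InjOn (y n) (insert (t + 2) (Finset.Icc 1 t) : Finset ℕ) :=
    y_injOn hn2 _ (fun i hi => by
      simp only [Finset.mem_insert, Finset.mem_Icc] at hi
      omega)
  have hdi := hDDI (y n) (Finset.Icc 1 t) (gk n k) (t + 2) (by simp) hinj
  rw [hDDT n k t ht htk hn2] at hdi
  -- the exact value of `cc`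
  have hcc : ∀ l ∈ Finset.Icc 1 t, cc n k t (t + 2) l =
      kap n k (t + 2) / kap n k 0 * (gk n k l *
        ∏ m ∈ (Finset.Icc 1 t).erase l, ((y n (t + 2) - y n m) / (y n l - y n m))) := by
    intro l hl
    have hl' := Finset.mem_Icc.1 hl
    have hkl := kap_gk (l := l) hn2 (by omega)
    have h1 : kap n k (t + 2) / kap n k 0 * (gk n k l *
        ∏ m ∈ (Finset.Icc 1 t).erase l, ((y n (t + 2) - y n m) / (y n l - y n m))) =
        kap n k (t + 2) / kap n k l *
        ∏ m ∈ (Finset.Icc 1 t).erase l, ((y n (t + 2) - y n m) / (y n l - y n m)) := by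
      rw [← mul_assoc]
      congr 1
      rw [← hkl.2]
      have h2 : gk n k l ≠ 0 := by
        intro h
        have := hkl.2
        rw [h, zero_mul] at this
        exact hk0.1 this.symm
      have h3 := hkl.1
      field_simp
    rw [h1]
    have h4 : 0 ≤ kap n k (t + 2) / kap n k l *
        ∏ m ∈ (Finset.Icc 1 t).erase l, ((y n (t + 2) - y n m) / (y n l - y n m)) := by
      rw [Finset.prod_div_distrib]
      have h5 := sign_prod (k := k) hn2 (by omega) hl
      have h6 : 0 < ∏ m ∈ (Finset.Icc 1 t).erase l, (y n (t + 2) - y n m) := by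
        refine Finset.prod_pos fun m hm => ?_
        have hm' := Finset.mem_Icc.1 (Finset.mem_erase.1 hm).2
        have := y_lt (i := m) hn2 (show m < t + 2 by omega) htk
        linarith
      have h7 : 0 ≤ (-1 : ℝ) ^ (t - l) * (kap n k (t + 2) / kap n k l) := by
        rw [kap, kap]
        have e1 : (-1 : ℝ) ^ (t + 2) = (-1 : ℝ) ^ (t - l) * (-1 : ℝ) ^ l := by
          rw [← pow_add, Nat.sub_add_cancel hl'.2, pow_add]
          norm_num
        have e2 : (-1 : ℝ) ^ l * ((-1 : ℝ) ^ l) = 1 := by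
          rw [← mul_pow]; norm_num
        have e3 : (-1 : ℝ) ^ (t - l) * ((-1 : ℝ) ^ (t - l)) = 1 := by
          rw [← mul_pow]; norm_num
        have hne : (-1 : ℝ) ^ l ≠ 0 := pow_ne_zero _ (by norm_num)
        have e4 : (-1 : ℝ) ^ (t - l) * ((-1 : ℝ) ^ (t + 2) *
            ((n - k - (t + 2)).choose (k - (t + 2)) : ℝ) /
            ((-1 : ℝ) ^ l * ((n - k - l).choose (k - l) : ℝ))) =
            ((-1 : ℝ) ^ (t - l) * (-1 : ℝ) ^ (t - l)) *
            (((n - k - (t + 2)).choose (k - (t + 2)) : ℝ) /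
              ((n - k - l).choose (k - l) : ℝ)) := by
          rw [e1, mul_div_assoc', mul_assoc ((-1 : ℝ) ^ (t - l)) ((-1 : ℝ) ^ l), ← mul_assoc,
            mul_div_assoc, mul_div_mul_left _ _ hne]
        rw [e4, e3, one_mul]
        positivity
      have h8 : kap n k (t + 2) / kap n k l *
          ((∏ m ∈ (Finset.Icc 1 t).erase l, (y n (t + 2) - y n m)) /
            ∏ m ∈ (Finset.Icc 1 t).erase l, (y n l - y n m)) =
          ((-1 : ℝ) ^ (t - l) * (kap n k (t + 2) / kap n k l)) *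
          ((∏ m ∈ (Finset.Icc 1 t).erase l, (y n (t + 2) - y n m)) /
            ((-1 : ℝ) ^ (t - l) * ∏ m ∈ (Finset.Icc 1 t).erase l, (y n l - y n m))) := by
        have hne : (-1 : ℝ) ^ (t - l) ≠ 0 := pow_ne_zero _ (by norm_num)
        have hne2 : ∏ m ∈ (Finset.Icc 1 t).erase l, (y n l - y n m) ≠ 0 := by
          intro h
          rw [h, mul_zero] at h5
          exact lt_irrefl _ h5
        have hne3 := hkl.1
        field_simp
      rw [h8]
      exact mul_nonneg h7 (div_nonneg h6.le h5.le)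
    rw [← abs_of_nonneg h4, abs_mul, Finset.abs_prod, cc]
    congr 1
    refine Finset.prod_congr rfl fun m _ => ?_
    rw [abs_div]
  rw [Finset.sum_congr rfl hcc, ← Finset.mul_sum]
  have hP : 0 < ∏ m ∈ Finset.Icc 1 t, (y n (t + 2) - y n m) := by
    refine Finset.prod_pos fun m hm => ?_
    have hm' := Finset.mem_Icc.1 hm
    have := y_lt (i := m) hn2 (show m < t + 2 by omega) htk
    linarith
  have hS : ∑ l ∈ Finset.Icc 1 t, gk n k l * ∏ m ∈ (Finset.Icc 1 t).erase l,
      ((y n (t + 2) - y n m) / (y n l - y n m)) = gk n k (t + 2) -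
      (∏ m ∈ Finset.Icc 1 t, (y n (t + 2) - y n m)) *
        ((-1 : ℝ) ^ t * (((n : ℝ) - k) / k) * ((n : ℝ) - (t + 1) * (k - t + 1)) /
        (((t + 1).factorial : ℝ) * ((k - 1).descFactorial (t + 1) : ℝ))) := by
    rw [← hdi]
    ring
  rw [hS, mul_sub]
  have h9 : kap n k (t + 2) / kap n k 0 * gk n k (t + 2) = 1 := by
    rw [← hk2.2]
    have h2 : gk n k (t + 2) ≠ 0 := by
      intro h
      have := hk2.2
      rw [h, zero_mul] at this
      exact hk0.1 this.symm
    have h3 := hk2.1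
    field_simp
  rw [h9]
  have h10 : 0 ≤ kap n k (t + 2) / kap n k 0 * ((∏ m ∈ Finset.Icc 1 t, (y n (t + 2) - y n m)) *
        ((-1 : ℝ) ^ t * (((n : ℝ) - k) / k) * ((n : ℝ) - (t + 1) * (k - t + 1)) /
        (((t + 1).factorial : ℝ) * ((k - 1).descFactorial (t + 1) : ℝ)))) := by
    have e1 : kap n k (t + 2) / kap n k 0 = (-1 : ℝ) ^ t *
        (((n - k - (t + 2)).choose (k - (t + 2)) : ℝ) / ((n - k - 0).choose (k - 0) : ℝ)) := by
      rw [kap, kap, pow_add]
      norm_num
      ring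
    have e3 : (-1 : ℝ) ^ t * ((-1 : ℝ) ^ t) = 1 := by
      rw [← mul_pow]; norm_num
    rw [e1]
    have e2 : (-1 : ℝ) ^ t *
        (((n - k - (t + 2)).choose (k - (t + 2)) : ℝ) / ((n - k - 0).choose (k - 0) : ℝ)) *
        ((∏ m ∈ Finset.Icc 1 t, (y n (t + 2) - y n m)) *
        ((-1 : ℝ) ^ t * (((n : ℝ) - k) / k) * ((n : ℝ) - (t + 1) * (k - t + 1)) /
        (((t + 1).factorial : ℝ) * ((k - 1).descFactorial (t + 1) : ℝ)))) =
        ((-1 : ℝ) ^ t * (-1 : ℝ) ^ t) *
        ((((n - k - (t + 2)).choose (k - (t + 2)) : ℝ) / ((n - k - 0).choose (k - 0) : ℝ)) *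
        ((∏ m ∈ Finset.Icc 1 t, (y n (t + 2) - y n m)) *
        ((((n : ℝ) - k) / k) * ((n : ℝ) - (t + 1) * (k - t + 1)) /
        (((t + 1).factorial : ℝ) * ((k - 1).descFactorial (t + 1) : ℝ))))) := by
      ring
    rw [e2, e3, one_mul]
    have hnk : (0 : ℝ) ≤ (n : ℝ) - k := by
      have : k ≤ n := by omega
      have : (k : ℝ) ≤ n := by exact_mod_cast this
      linarith
    have hbig : (0 : ℝ) ≤ (n : ℝ) - (t + 1) * (k - t + 1) := by
      have h11 : (((t + 1) * (k - t + 1) : ℕ) : ℝ) ≤ n := by exact_mod_cast hn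
      rw [Nat.cast_mul, Nat.cast_add, Nat.cast_add, Nat.cast_sub (by omega)] at h11
      push_cast at h11
      linarith
    have hcc2 : (0 : ℝ) ≤ (((n - k - (t + 2)).choose (k - (t + 2)) : ℝ) /
        ((n - k - 0).choose (k - 0) : ℝ)) := by positivity
    refine mul_nonneg hcc2 (mul_nonneg hP.le ?_)
    refine div_nonneg (mul_nonneg (div_nonneg hnk (Nat.cast_nonneg _)) hbig) (by positivity)
  linarith

end Pool.Agent.DPS.H94
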